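import Pool.Agent.Lib.MP_688fd0_co.TE.H41.Rup

/-!
# Theorem E, module CHOICE (the choice of `k` and `B`)
-/

namespace Pool.Agent.Lib.MP_688fd0_co.TE.H41

open Finset

universe u

set_option linter.unusedSectionVars false

/-- Pigeonhole: a sequence which is bounded above by `M` at `0` and below by `L` at `I` has a
quotient of consecutive terms which is at most `X` as soon as `M < X ^ I * L`. -/
theorem pigeon (a : ℕ → ℝ) (X M L : ℝ) (I : ℕ) (hX : 0 ≤ X) (h0 : a 0 ≤ M) (hL : L ≤ a I)
    (h : M < X ^ I * L) : ∃ i, 1 ≤ i ∧ i ≤ I ∧ a (i - 1) ≤ X * a i := by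
  by_contra hc
  push Not at hc
  have h1 : ∀ i, i ≤ I → X ^ i * a i ≤ a 0 := by
    intro i
    induction i with
    | zero => intro _; simp
    | succ i ih =>
      intro hi
      have h2 := hc (i + 1) (by omega) hi
      rw [Nat.add_sub_cancel] at h2
      have h3 := ih (by omega)
      calc X ^ (i + 1) * a (i + 1) = X ^ i * (X * a (i + 1)) := by ring
        _ ≤ X ^ i * a i := mul_le_mul_of_nonneg_left h2.le (pow_nonneg hX i)
        _ ≤ a 0 := h3
  have h2 := h1 I le_rfl
  have h3 : X ^ I * L ≤ X ^ I * a I := mul_le_mul_of_nonneg_left hL (pow_nonneg hX I)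
  linarith

section

variable {G : Type u} [Group G] [Fintype G] [DecidableEq G]

theorem qf_le_one {B C : Finset G} (hB : Sy B) (hC : Sy C) (τ : Bool) (j : ℕ) :
    qf B C τ j ≤ 1 := by
  have := q_anti (sm_ds hB hC τ) (sm_inv B C τ) (sm_tr hB hC τ) (Nat.zero_le j)
  simpa [qf] using this

theorem qf_low {B C : Finset G} (hB : Sy B) (hC : Sy C) (τ : Bool) (j : ℕ) :
    1 / (Fintype.card G : ℝ) ≤ qf B C τ j := q_low (sm_ds hB hC τ) (sm_tr hB hC τ) j

theorem qf_anti {B C : Finset G} (hB : Sy B) (hC : Sy C) (τ : Bool) {i j : ℕ} (h : i ≤ j) :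
    qf B C τ j ≤ qf B C τ i :=
  q_anti (sm_ds hB hC τ) (sm_inv B C τ) (sm_tr hB hC τ) h

end

theorem choice : CHOICE_S.{u} := by
  intro G _ _ _ A C hA hC c D k0 Θ I hc hc1 hD hΘ hk0 hI hn hAc
  classical
  set n : ℝ := (Fintype.card G : ℝ) with hndef
  have hn2 : (2 : ℝ) ≤ n := by
    rw [hndef]
    exact_mod_cast hn
  have hn1 : (1 : ℝ) < n := by linarith
  have hn0 : (0 : ℝ) < n := by linarith
  set κ : ℝ := 4 / c + 2 with hκ
  have hκ0 : 0 < κ := by positivity
  -- the functional
  set F : Finset G → ℕ → ℝ := fun B k => (B.card : ℝ) ^ κ * qf B C false k * qf B C true k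
    with hF
  have hmem : ∀ B : Finset G, B ∈ (A.powerset).filter (fun B : Finset G => Sy B) ↔
      B ⊆ A ∧ Sy B := by
    intro B
    rw [Finset.mem_filter, Finset.mem_powerset]
  have hex : ∀ k : ℕ, ∃ B : Finset G, (B ⊆ A ∧ Sy B) ∧ ∀ B', B' ⊆ A → Sy B' → F B' k ≤ F B k := by
    intro k
    obtain ⟨B, hB, hmax⟩ := Finset.exists_max_image
      ((A.powerset).filter (fun B : Finset G => Sy B)) (fun B => F B k)
      ⟨A, (hmem A).mpr ⟨Finset.Subset.refl _, hA⟩⟩
    exact ⟨B, (hmem B).mp hB, fun B' h1 h2 => hmax B' ((hmem B').mpr ⟨h1, h2⟩)⟩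
  choose Bm hBm hmax using hex
  have hup : ∀ k, F (Bm k) k ≤ n ^ κ := by
    intro k
    have h1 : ((Bm k).card : ℝ) ^ κ ≤ n ^ κ := by
      refine Real.rpow_le_rpow (Nat.cast_nonneg _) ?_ hκ0.le
      rw [hndef]
      exact_mod_cast Finset.card_le_univ _
    have h2 := qf_le_one (hBm k).2 hC false k
    have h3 := qf_le_one (hBm k).2 hC true k
    have h4 := qf_pos (hBm k).2 hC false k
    have h5 := qf_pos (hBm k).2 hC true k
    have h6 : 0 ≤ ((Bm k).card : ℝ) ^ κ := Real.rpow_nonneg (Nat.cast_nonneg _) _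
    calc F (Bm k) k = ((Bm k).card : ℝ) ^ κ * qf (Bm k) C false k * qf (Bm k) C true k := rfl
      _ ≤ ((Bm k).card : ℝ) ^ κ * 1 * 1 := by gcongr
      _ ≤ n ^ κ := by rw [mul_one, mul_one]; exact h1
  have hcκ : c * κ = 4 + 2 * c := by
    rw [hκ]
    field_simp
  have hlow : ∀ k, n ^ (2 + 2 * c) ≤ F (Bm k) k := by
    intro k
    refine le_trans ?_ (hmax k A (Finset.Subset.refl _) hA)
    have h1 : n ^ (4 + 2 * c) ≤ (A.card : ℝ) ^ κ := by
      rw [← hcκ, Real.rpow_mul hn0.le]
      exact Real.rpow_le_rpow (Real.rpow_nonneg hn0.le _) hAc hκ0.le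
    have h2 : n ^ (2 + 2 * c) = n ^ (4 + 2 * c) * (1 / n) * (1 / n) := by
      have h3 : n ^ (4 + 2 * c) = n ^ (2 + 2 * c) * n ^ (2 : ℝ) := by
        rw [← Real.rpow_add hn0]
        congr 1
        ring
      rw [h3, Real.rpow_two]
      field_simp
    rw [h2]
    have h4 := qf_low hA hC false k
    have h5 := qf_low hA hC true k
    have h6 : 0 ≤ n ^ (4 + 2 * c) := Real.rpow_nonneg hn0.le _
    have h7 : 0 ≤ 1 / n := by positivity
    exact mul_le_mul (mul_le_mul h1 h4 h7 (Real.rpow_nonneg (Nat.cast_nonneg _) _)) h5 h7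
      (mul_nonneg (Real.rpow_nonneg (Nat.cast_nonneg _) _) (qf_pos hA hC false k).le)
  have hX0 : 0 < n ^ (1 / D) := Real.rpow_pos_of_pos hn0 _
  obtain ⟨i, hi1, hi2, hi3⟩ := pigeon (fun i => F (Bm (Θ ^ i * k0)) (Θ ^ i * k0)) (n ^ (1 / D))
    (n ^ κ) (n ^ (2 + 2 * c)) I hX0.le (hup _) (hlow _) (by
      rw [← Real.rpow_natCast (n ^ (1 / D)) I, ← Real.rpow_mul hn0.le, ← Real.rpow_add hn0]
      refine Real.rpow_lt_rpow_of_exponent_lt hn1 ?_
      have h1 : κ ≤ 1 / D * (I : ℝ) := by
        rw [one_div, inv_mul_eq_div, le_div_iff₀ (by linarith)]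
        exact hI
      linarith)
  set k := Θ ^ i * k0 with hk
  set k' := Θ ^ (i - 1) * k0 with hk'
  set B := Bm k with hB
  have hBA := (hBm k).1
  have hSy := (hBm k).2
  have hkk : k' ≤ k := by
    rw [hk, hk']
    exact Nat.mul_le_mul_right _ (Nat.pow_le_pow_right (by omega) (by omega))
  have hbpos : (0 : ℝ) < (B.card : ℝ) := by exact_mod_cast hSy.ne.card_pos
  have hbκ : 0 < (B.card : ℝ) ^ κ := Real.rpow_pos_of_pos hbpos _
  have e0 := qf_pos hSy hC false k
  have e1 := qf_pos hSy hC true k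
  have e0' := qf_pos hSy hC false k'
  have e1' := qf_pos hSy hC true k'
  have a0 := qf_anti hSy hC false hkk
  have a1 := qf_anti hSy hC true hkk
  have hprod : qf B C false k' * qf B C true k' ≤
      n ^ (1 / D) * (qf B C false k * qf B C true k) := by
    have h1 : F B k' ≤ n ^ (1 / D) * F B k := (hmax k' B hBA hSy).trans hi3
    have h2 : (B.card : ℝ) ^ κ * (qf B C false k' * qf B C true k') ≤
        (B.card : ℝ) ^ κ * (n ^ (1 / D) * (qf B C false k * qf B C true k)) := by
      have h3 : F B k' = (B.card : ℝ) ^ κ * (qf B C false k' * qf B C true k') := by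
        rw [hF]
        ring
      have h4 : n ^ (1 / D) * F B k =
          (B.card : ℝ) ^ κ * (n ^ (1 / D) * (qf B C false k * qf B C true k)) := by
        rw [hF]
        ring
      rw [← h3, ← h4]
      exact h1
    exact le_of_mul_le_mul_left h2 hbκ
  refine ⟨i, B, hi1, hi2, hBA, hSy, ?_, ?_, ?_⟩
  · -- the size of `B`
    by_contra hlt
    push Not at hlt
    have h1 : n ^ (2 + 2 * c) ≤ (B.card : ℝ) ^ κ := by
      refine (hlow k).trans ?_
      have h2 := qf_le_one hSy hC false k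
      have h3 := qf_le_one hSy hC true k
      calc F B k = (B.card : ℝ) ^ κ * qf B C false k * qf B C true k := rfl
        _ ≤ (B.card : ℝ) ^ κ * 1 * 1 := by gcongr
        _ = (B.card : ℝ) ^ κ := by rw [mul_one, mul_one]
    have h2 : (B.card : ℝ) ^ κ < (n ^ (c / 2)) ^ κ := Real.rpow_lt_rpow hbpos.le hlt hκ0
    rw [← Real.rpow_mul hn0.le] at h2
    have h3 : c / 2 * κ = 2 + c := by
      have : c / 2 * κ = (c * κ) / 2 := by ring
      rw [this, hcκ]
      ring
    rw [h3] at h2
    have h4 : n ^ (2 + c) ≤ n ^ (2 + 2 * c) :=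
      Real.rpow_le_rpow_of_exponent_le hn1.le (by linarith)
    linarith
  · intro τ
    cases τ
    · have h1 : qf B C false k' * qf B C true k ≤ n ^ (1 / D) * qf B C false k * qf B C true k := by
        calc qf B C false k' * qf B C true k ≤ qf B C false k' * qf B C true k' :=
              mul_le_mul_of_nonneg_left a1 e0'.le
          _ ≤ n ^ (1 / D) * (qf B C false k * qf B C true k) := hprod
          _ = n ^ (1 / D) * qf B C false k * qf B C true k := by ring
      exact le_of_mul_le_mul_right h1 e1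
    · have h1 : qf B C false k * qf B C true k' ≤
          qf B C false k * (n ^ (1 / D) * qf B C true k) := by
        calc qf B C false k * qf B C true k' ≤ qf B C false k' * qf B C true k' :=
              mul_le_mul_of_nonneg_right a0 e1'.le
          _ ≤ n ^ (1 / D) * (qf B C false k * qf B C true k) := hprod
          _ = qf B C false k * (n ^ (1 / D) * qf B C true k) := by ring
      exact le_of_mul_le_mul_left h1 e0
  · intro B' h1 h2
    exact hmax k B' h1 h2

end Pool.Agent.Lib.MP_688fd0_co.TE.H41
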