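import Pool.Agent.Lib.MP_688fd0_co.TE.Iface1

/-!
# Theorem E, module GEN (a small generating set)
-/

namespace Pool.Agent.Lib.MP_688fd0_co.TE.H41

open Finset

universe u

theorem card_lt_double {G : Type u} [Group G] [Fintype G] (H K : Subgroup G) (h : H < K) :
    2 * Nat.card H ≤ Nat.card K := by
  have h1 : Nat.card H ∣ Nat.card K := Subgroup.card_dvd_of_le h.le
  obtain ⟨m, hm⟩ := h1
  have hK : 0 < Nat.card K := Nat.card_pos
  have hH : 0 < Nat.card H := Nat.card_pos
  have h2 : m ≠ 0 := by
    rintro rfl
    rw [mul_zero] at hm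
    omega
  have h3 : m ≠ 1 := by
    rintro rfl
    rw [mul_one] at hm
    have : H = K := Subgroup.eq_of_le_of_card_ge h.le (le_of_eq hm)
    exact h.ne this
  have h4 : 2 ≤ m := by omega
  rw [hm, mul_comm 2]
  exact Nat.mul_le_mul_left _ h4

theorem gen : GEN_S.{u} := by
  intro G _ _ _ A hA hgen hG
  classical
  have hne : ((A.powerset).filter
      (fun D : Finset G => 2 ^ D.card ≤ Nat.card (Subgroup.closure (D : Set G)))).Nonempty := by
    refine ⟨∅, ?_⟩
    rw [Finset.mem_filter, Finset.mem_powerset]
    refine ⟨Finset.empty_subset _, ?_⟩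
    rw [Finset.card_empty, pow_zero]
    exact Nat.card_pos
  obtain ⟨D, hD, hmax⟩ := Finset.exists_max_image _ (fun D : Finset G => D.card) hne
  rw [Finset.mem_filter, Finset.mem_powerset] at hD
  have hDtop : Subgroup.closure (D : Set G) = ⊤ := by
    by_contra hc
    have h1 : ∃ a ∈ A, a ∉ Subgroup.closure (D : Set G) := by
      by_contra h2
      push Not at h2
      have h3 : Subgroup.closure (A : Set G) ≤ Subgroup.closure (D : Set G) := by
        rw [Subgroup.closure_le]
        intro a ha
        exact h2 a ha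
      rw [hgen] at h3
      exact hc (top_le_iff.mp h3)
    obtain ⟨a, ha, hna⟩ := h1
    have haD : a ∉ D := fun h => hna (Subgroup.subset_closure h)
    have h4 : Subgroup.closure (D : Set G) < Subgroup.closure ((insert a D : Finset G) : Set G) := by
      refine lt_of_le_of_ne (Subgroup.closure_mono ?_) ?_
      · rw [Finset.coe_insert]
        exact Set.subset_insert _ _
      · intro h5
        apply hna
        rw [h5]
        exact Subgroup.subset_closure (by rw [Finset.coe_insert]; exact Set.mem_insert _ _)
    have h5 := hmax (insert a D) (by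
      rw [Finset.mem_filter, Finset.mem_powerset]
      refine ⟨Finset.insert_subset ha hD.1, ?_⟩
      rw [Finset.card_insert_of_notMem haD, pow_succ, mul_comm]
      exact (Nat.mul_le_mul_left 2 hD.2).trans (card_lt_double _ _ h4))
    rw [Finset.card_insert_of_notMem haD] at h5
    omega
  refine ⟨D ∪ D.image (fun x => x⁻¹), ?_, ⟨?_, ?_⟩, ?_, ?_⟩
  · intro x hx
    rw [Finset.mem_union, Finset.mem_image] at hx
    rcases hx with hx | ⟨y, hy, rfl⟩
    · exact hD.1 hx
    · exact hA y (hD.1 hy)
  · rw [Finset.union_nonempty]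
    left
    rw [Finset.nonempty_iff_ne_empty]
    rintro rfl
    rw [Finset.coe_empty, Subgroup.closure_empty] at hDtop
    have h6 : Nat.card (⊥ : Subgroup G) = Nat.card (⊤ : Subgroup G) := by rw [hDtop]
    rw [Subgroup.card_bot, Subgroup.card_top, Nat.card_eq_fintype_card] at h6
    omega
  · intro x hx
    rw [Finset.mem_union, Finset.mem_image] at hx ⊢
    rcases hx with hx | ⟨y, hy, rfl⟩
    · exact Or.inr ⟨x, hx, rfl⟩
    · exact Or.inl (by rwa [inv_inv])
  · refine top_le_iff.mp (hDtop ▸ Subgroup.closure_mono ?_)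
    rw [Finset.coe_union]
    exact Set.subset_union_left
  · have h7 : (D ∪ D.image (fun x => x⁻¹)).card ≤ 2 * D.card := by
      refine (Finset.card_union_le _ _).trans ?_
      have := Finset.card_image_le (s := D) (f := fun x => x⁻¹)
      omega
    have h8 : 2 ^ D.card ≤ Fintype.card G := by
      have := hD.2
      rw [hDtop, Subgroup.card_top, Nat.card_eq_fintype_card] at this
      exact this
    have h9 : (D.card : ℝ) * Real.log 2 ≤ Real.log (Fintype.card G) := by
      rw [← Real.log_pow]
      refine Real.log_le_log (by positivity) ?_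
      exact_mod_cast h8
    have h10 : (0.6931471803 : ℝ) < Real.log 2 := Real.log_two_gt_d9
    have h11 : ((D ∪ D.image (fun x => x⁻¹)).card : ℝ) ≤ 2 * (D.card : ℝ) := by
      exact_mod_cast h7
    have h12 : (0 : ℝ) ≤ D.card := Nat.cast_nonneg _
    nlinarith

end Pool.Agent.Lib.MP_688fd0_co.TE.H41
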