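import Pool.Agent.Lib.MP_688fd0_co.TE.H41.Mat

/-!
# Theorem E, module LOGC (log convexity of the return probabilities)
-/

namespace Pool.Agent.Lib.MP_688fd0_co.TE.H41

open Finset

universe u

set_option linter.unusedSectionVars false

section

variable {G : Type u} [Group G] [Fintype G] [DecidableEq G]

theorem ds_one : DS (1 : Matrix G G ℝ) := by
  refine ⟨fun x y => ?_, fun x => ?_, fun y => ?_⟩
  · rw [Matrix.one_apply]
    split <;> norm_num
  · simp [Matrix.one_apply]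
  · simp [Matrix.one_apply]

theorem inv_one : Inv (1 : Matrix G G ℝ) := by
  intro g x y
  rw [Matrix.one_apply, Matrix.one_apply]
  simp

theorem ds_pow {S : Matrix G G ℝ} (hS : DS S) (j : ℕ) : DS (S ^ j) := by
  induction j with
  | zero => rw [pow_zero]; exact ds_one
  | succ j ih => rw [pow_succ]; exact ds_mul ih hS

theorem inv_pow {S : Matrix G G ℝ} (hS : Inv S) (j : ℕ) : Inv (S ^ j) := by
  induction j with
  | zero => rw [pow_zero]; exact inv_one
  | succ j ih => rw [pow_succ]; exact inv_mul ih hS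

theorem tr_pow {S : Matrix G G ℝ} (hS : S.transpose = S) (j : ℕ) :
    (S ^ j).transpose = S ^ j := by
  rw [Matrix.transpose_pow, hS]

/-- Squared norm of the row `1`. -/
noncomputable def rn (M : Matrix G G ℝ) (x : G) : ℝ := ∑ v, M x v ^ 2

theorem rn_inv {M : Matrix G G ℝ} (hM : Inv M) (x : G) : rn M x = rn M 1 := by
  unfold rn
  refine (Fintype.sum_equiv (Equiv.mulLeft x) _ _ (fun v => ?_)).symm
  rw [Equiv.coe_mulLeft]
  have := hM x 1 v
  rw [mul_one] at this
  rw [this]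

theorem rn_eq (M : Matrix G G ℝ) (x : G) : rn M x = (M * M.transpose) x x := by
  unfold rn
  rw [Matrix.mul_apply]
  refine Finset.sum_congr rfl (fun v _ => ?_)
  rw [Matrix.transpose_apply, sq]

theorem rn_nonneg (M : Matrix G G ℝ) (x : G) : 0 ≤ rn M x :=
  Finset.sum_nonneg (fun _ _ => sq_nonneg _)

theorem cs (M N : Matrix G G ℝ) (x y : G) :
    (M * N) x y ≤ Real.sqrt (rn M x) * Real.sqrt (rn N.transpose y) := by
  rw [Matrix.mul_apply]
  have := Real.sum_mul_le_sqrt_mul_sqrt (Finset.univ : Finset G) (fun z => M x z) (fun z => N z y)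
  exact this

theorem rn_contr {M N : Matrix G G ℝ} (hM : DS M) (hN : Inv N) (x : G) :
    rn (M * N) x ≤ rn N 1 := by
  have h1 : ∀ v, ((M * N) x v) ^ 2 ≤ ∑ z, M x z * N z v ^ 2 := by
    intro v
    rw [Matrix.mul_apply]
    have h2 := Finset.sum_sq_le_sum_mul_sum_of_sq_le_mul (Finset.univ : Finset G)
      (r := fun z => M x z * N z v) (f := fun z => M x z) (g := fun z => M x z * N z v ^ 2)
      (fun z _ => hM.nn _ _) (fun z _ => mul_nonneg (hM.nn _ _) (sq_nonneg _))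
      (fun z _ => le_of_eq (by ring))
    rw [hM.row, one_mul] at h2
    exact h2
  calc rn (M * N) x ≤ ∑ v, ∑ z, M x z * N z v ^ 2 := Finset.sum_le_sum (fun v _ => h1 v)
    _ = ∑ z, M x z * rn N z := by
        rw [Finset.sum_comm]
        refine Finset.sum_congr rfl (fun z _ => ?_)
        rw [rn, Finset.mul_sum]
    _ = ∑ z, M x z * rn N 1 := by
        refine Finset.sum_congr rfl (fun z _ => ?_)
        rw [rn_inv hN z]
    _ = rn N 1 := by rw [← Finset.sum_mul, hM.row, one_mul]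

section sym

variable {S : Matrix G G ℝ} (hd : DS S) (hi : Inv S) (ht : S.transpose = S)

include ht in
theorem rn_pow (j : ℕ) (x : G) : rn (S ^ j) x = (S ^ (2 * j)) x x := by
  rw [rn_eq, tr_pow ht, ← pow_add, two_mul]

include hd ht in
theorem q_low (j : ℕ) : 1 / (Fintype.card G : ℝ) ≤ (S ^ (2 * j)) 1 1 := by
  have h1 := (Finset.univ : Finset G)
  have h2 : (∑ v, (S ^ j) 1 v) ^ 2 ≤ (Fintype.card G : ℝ) * ∑ v, (S ^ j) 1 v ^ 2 := by
    have := sq_sum_le_card_mul_sum_sq (s := (Finset.univ : Finset G)) (f := fun v => (S ^ j) 1 v)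
    simpa using this
  rw [(ds_pow hd j).row, one_pow] at h2
  have h3 : ∑ v, (S ^ j) 1 v ^ 2 = (S ^ (2 * j)) 1 1 := rn_pow ht j 1
  rw [h3] at h2
  have h4 : (0 : ℝ) < Fintype.card G := by
    have : 0 < Fintype.card G := Fintype.card_pos
    exact_mod_cast this
  rw [div_le_iff₀ h4, mul_comm]
  exact h2

include hd ht in
theorem q_pos (j : ℕ) : 0 < (S ^ (2 * j)) 1 1 := by
  have h4 : (0 : ℝ) < Fintype.card G := by
    have : 0 < Fintype.card G := Fintype.card_pos
    exact_mod_cast this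
  exact lt_of_lt_of_le (by positivity) (q_low hd ht j)

include hi ht in
theorem q_sup (j : ℕ) (x y : G) : (S ^ (2 * j)) x y ≤ (S ^ (2 * j)) 1 1 := by
  have h1 := cs (S ^ j) (S ^ j) x y
  rw [tr_pow ht, rn_inv (inv_pow hi j) x, rn_inv (inv_pow hi j) y, ← pow_add, ← two_mul,
    Real.mul_self_sqrt (rn_nonneg _ _), rn_pow ht] at h1
  exact h1

include hd hi ht in
theorem q_sup_odd (j : ℕ) (x y : G) : (S ^ (2 * j + 1)) x y ≤ (S ^ (2 * j)) 1 1 := by
  rw [pow_succ]
  exact (ds_sup hd (q_sup hi ht j) x y).2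

include hd hi ht in
theorem q_step (j : ℕ) : (S ^ (2 * (j + 1))) 1 1 ≤ (S ^ (2 * j)) 1 1 := by
  have : 2 * (j + 1) = 2 * j + 1 + 1 := by ring
  rw [this, pow_succ]
  exact (ds_sup hd (q_sup_odd hd hi ht j) 1 1).2

include hd hi ht in
theorem q_anti {i j : ℕ} (h : i ≤ j) : (S ^ (2 * j)) 1 1 ≤ (S ^ (2 * i)) 1 1 := by
  induction h with
  | refl => exact le_rfl
  | step _ ih => exact (q_step hd hi ht _).trans ih

include ht in
theorem q_lc (j : ℕ) : ((S ^ (2 * (j + 1))) 1 1) ^ 2 ≤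
    (S ^ (2 * j)) 1 1 * (S ^ (2 * (j + 2))) 1 1 := by
  have h0 : (S ^ (2 * (j + 1))) = S ^ j * S ^ (j + 2) := by
    rw [← pow_add]
    congr 1
    ring
  have h1 : (S ^ (2 * (j + 1))) 1 1 = ∑ v, (S ^ j) 1 v * (S ^ (j + 2)) 1 v := by
    rw [h0, Matrix.mul_apply]
    refine Finset.sum_congr rfl (fun v _ => ?_)
    conv_lhs => rw [← tr_pow ht (j + 2)]
    rw [Matrix.transpose_apply]
  rw [h1]
  have h2 := Finset.sum_mul_sq_le_sq_mul_sq (Finset.univ : Finset G) (fun v => (S ^ j) 1 v)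
    (fun v => (S ^ (j + 2)) 1 v)
  have h3 : ∑ v, (S ^ j) 1 v ^ 2 = (S ^ (2 * j)) 1 1 := rn_pow ht j 1
  have h4 : ∑ v, (S ^ (j + 2)) 1 v ^ 2 = (S ^ (2 * (j + 2))) 1 1 := rn_pow ht (j + 2) 1
  rw [h3, h4] at h2
  exact h2

/-- The ratio. -/
noncomputable def ra (S : Matrix G G ℝ) (i : ℕ) : ℝ :=
  (S ^ (2 * i)) 1 1 / (S ^ (2 * (i + 1))) 1 1

include hd ht in
theorem ra_pos (i : ℕ) : 0 < ra S i := div_pos (q_pos hd ht i) (q_pos hd ht (i + 1))

include hd ht in
theorem ra_step (i : ℕ) : ra S (i + 1) ≤ ra S i := by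
  unfold ra
  rw [div_le_div_iff₀ (q_pos hd ht (i + 1 + 1)) (q_pos hd ht (i + 1))]
  have := q_lc ht i
  have e : i + 2 = i + 1 + 1 := rfl
  rw [e, sq] at this
  exact this

include hd ht in
theorem ra_anti {i j : ℕ} (h : i ≤ j) : ra S j ≤ ra S i := by
  induction h with
  | refl => exact le_rfl
  | step _ ih => exact (ra_step hd ht _).trans ih

include hd ht in
theorem ra_prod (j : ℕ) : ∏ i ∈ range j, ra S i = 1 / (S ^ (2 * j)) 1 1 := by
  induction j with
  | zero => simp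
  | succ j ih =>
    rw [Finset.prod_range_succ, ih, ra]
    have h1 := q_pos hd ht j
    have h2 := q_pos hd ht (j + 1)
    field_simp

include hd ht in
theorem ra_pow (j : ℕ) : ra S j ^ (j + 1) ≤ (Fintype.card G : ℝ) := by
  have h1 : ra S j ^ (j + 1) ≤ ∏ i ∈ range (j + 1), ra S i := by
    have h2 : ∏ i ∈ range (j + 1), ra S j ≤ ∏ i ∈ range (j + 1), ra S i := by
      refine Finset.prod_le_prod (fun i _ => (ra_pos hd ht j).le) (fun i hi => ?_)
      exact ra_anti hd ht (by have := Finset.mem_range.mp hi; omega)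
    rwa [Finset.prod_const, Finset.card_range] at h2
  refine h1.trans ?_
  rw [ra_prod hd ht]
  have h4 : (0 : ℝ) < Fintype.card G := by
    have : 0 < Fintype.card G := Fintype.card_pos
    exact_mod_cast this
  have h5 := q_low hd ht (j + 1)
  rw [div_le_iff₀ (q_pos hd ht _)]
  rw [div_le_iff₀ h4] at h5
  linarith [mul_comm ((S ^ (2 * (j + 1))) 1 1) (Fintype.card G : ℝ)]

include hd ht in
theorem ra_le (j : ℕ) : ra S j ≤ Real.exp (Real.log (Fintype.card G) / ((j + 1 : ℕ) : ℝ)) := by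
  have h4 : (0 : ℝ) < Fintype.card G := by
    have : 0 < Fintype.card G := Fintype.card_pos
    exact_mod_cast this
  have h5 : (0 : ℝ) < ((j + 1 : ℕ) : ℝ) := by positivity
  have h6 := ra_pos hd ht j
  rw [← Real.log_le_iff_le_exp h6, le_div_iff₀ h5]
  have h7 := Real.log_le_log (pow_pos h6 (j + 1)) (ra_pow hd ht j)
  rw [Real.log_pow] at h7
  linarith [mul_comm (Real.log (ra S j)) ((j + 1 : ℕ) : ℝ)]

include hd ht in
theorem q_ratio (j : ℕ) (hj : 1 ≤ j) : (S ^ (2 * (j - 1))) 1 1 ≤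
      Real.exp (Real.log (Fintype.card G) / j) * (S ^ (2 * j)) 1 1 := by
  obtain ⟨i, rfl⟩ : ∃ i, j = i + 1 := ⟨j - 1, by omega⟩
  have h1 := ra_le hd ht i
  rw [ra, div_le_iff₀ (q_pos hd ht (i + 1))] at h1
  rw [Nat.add_sub_cancel]
  exact h1

end sym

end

theorem logc : LOGC_S.{u} := by
  intro G _ _ _ S hd hi ht
  exact ⟨q_low hd ht, fun i j h => q_anti hd hi ht h, q_ratio hd ht, q_sup hi ht,
    q_sup_odd hd hi ht⟩

end Pool.Agent.Lib.MP_688fd0_co.TE.H41
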