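import Pool.Agent.Lib.MP_688fd0_co.TE.Iface1

/-!
# Theorem E, module MAT (basic facts on kernels)
-/

namespace Pool.Agent.Lib.MP_688fd0_co.TE.H41

open Finset

universe u

set_option linter.unusedSectionVars false

section

variable {G : Type u} [Group G] [Fintype G] [DecidableEq G]

theorem sum_ind_mem (S : Finset G) : ∑ y : G, ind (y ∈ S) = (S.card : ℝ) := by
  classical
  have h1 : ∀ y : G, ind (y ∈ S) = if y ∈ S then (1 : ℝ) else 0 := by
    intro y
    by_cases h : y ∈ S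
    · rw [ind_of h, if_pos h]
    · rw [ind_not h, if_neg h]
  simp only [h1]
  rw [Finset.sum_ite_mem, Finset.univ_inter, Finset.sum_const, nsmul_eq_mul, mul_one]

theorem um_row (S : Finset G) (hS : S.Nonempty) (x : G) : ∑ y, UM S x y = 1 := by
  have h0 : (S.card : ℝ) ≠ 0 := by
    have := hS.card_pos
    positivity
  have h1 : ∑ y, UM S x y = (∑ y : G, ind (y ∈ S)) / (S.card : ℝ) := by
    rw [Finset.sum_div]
    exact Fintype.sum_equiv (Equiv.mulLeft x⁻¹) _ _ (fun y => rfl)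
  rw [h1, sum_ind_mem, div_self h0]

theorem um_col (S : Finset G) (hS : S.Nonempty) (y : G) : ∑ x, UM S x y = 1 := by
  have h0 : (S.card : ℝ) ≠ 0 := by
    have := hS.card_pos
    positivity
  have h1 : ∑ x, UM S x y = (∑ z : G, ind (z ∈ S)) / (S.card : ℝ) := by
    rw [Finset.sum_div]
    exact Fintype.sum_equiv ((Equiv.inv G).trans (Equiv.mulRight y)) _ _ (fun x => rfl)
  rw [h1, sum_ind_mem, div_self h0]

theorem um_ds (S : Finset G) (hS : S.Nonempty) : DS (UM S) :=
  ⟨fun _ _ => div_nonneg (ind_nonneg _) (Nat.cast_nonneg _), um_row S hS, um_col S hS⟩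

theorem um_inv (S : Finset G) : Inv (UM S) := by
  intro g x y
  have : (g * x)⁻¹ * (g * y) = x⁻¹ * y := by group
  unfold UM
  rw [this]

theorem um_tr (S : Finset G) (hS : ∀ s ∈ S, s⁻¹ ∈ S) : (UM S).transpose = UM S := by
  ext x y
  rw [Matrix.transpose_apply]
  unfold UM
  have h : (y⁻¹ * x ∈ S) ↔ (x⁻¹ * y ∈ S) := by
    constructor
    · intro h
      have := hS _ h
      simpa using this
    · intro h
      have := hS _ h
      simpa using this
  have : (y⁻¹ * x ∈ S) = (x⁻¹ * y ∈ S) := propext h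
  rw [this]

theorem ds_mul {M N : Matrix G G ℝ} (hM : DS M) (hN : DS N) : DS (M * N) := by
  refine ⟨fun x y => ?_, fun x => ?_, fun y => ?_⟩
  · rw [Matrix.mul_apply]
    exact Finset.sum_nonneg (fun z _ => mul_nonneg (hM.nn _ _) (hN.nn _ _))
  · simp only [Matrix.mul_apply]
    rw [Finset.sum_comm]
    calc ∑ z, ∑ y, M x z * N z y = ∑ z, M x z := by
          refine Finset.sum_congr rfl (fun z _ => ?_)
          rw [← Finset.mul_sum, hN.row, mul_one]
      _ = 1 := hM.row x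
  · simp only [Matrix.mul_apply]
    rw [Finset.sum_comm]
    calc ∑ z, ∑ x, M x z * N z y = ∑ z, N z y := by
          refine Finset.sum_congr rfl (fun z _ => ?_)
          rw [← Finset.sum_mul, hM.col, one_mul]
      _ = 1 := hN.col y

theorem inv_mul {M N : Matrix G G ℝ} (hM : Inv M) (hN : Inv N) : Inv (M * N) := by
  intro g x y
  rw [Matrix.mul_apply, Matrix.mul_apply]
  rw [← Equiv.sum_comp (Equiv.mulLeft g)]
  refine Finset.sum_congr rfl (fun z _ => ?_)
  rw [Equiv.coe_mulLeft, hM, hN]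

theorem nn_mul {M N : Matrix G G ℝ} (hM : NN M) (hN : NN N) : NN (M * N) := by
  intro x y
  rw [Matrix.mul_apply]
  exact Finset.sum_nonneg (fun z _ => mul_nonneg (hM _ _) (hN _ _))

theorem mul_mono {M M' N N' : Matrix G G ℝ} (hM : NN M) (hN : NN N) (h1 : ∀ x y, M x y ≤ M' x y)
    (h2 : ∀ x y, N x y ≤ N' x y) (x y : G) : (M * N) x y ≤ (M' * N') x y := by
  rw [Matrix.mul_apply, Matrix.mul_apply]
  exact Finset.sum_le_sum (fun z _ => mul_le_mul (h1 _ _) (h2 _ _) (hN _ _)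
    ((hM _ _).trans (h1 _ _)))

theorem inv_col {M : Matrix G G ℝ} (hM : Inv M) (v : G) : M 1 v = M v⁻¹ 1 := by
  have := hM v⁻¹ 1 v
  rw [← this]
  simp

theorem cyc {M N : Matrix G G ℝ} (hM : Inv M) (hN : Inv N) : (M * N) 1 1 = (N * M) 1 1 := by
  rw [Matrix.mul_apply, Matrix.mul_apply]
  refine Fintype.sum_equiv (Equiv.inv G) _ _ (fun v => ?_)
  rw [Equiv.inv_apply, inv_col hM v, inv_col hN v⁻¹, inv_inv, mul_comm]

theorem ds_sup {M N : Matrix G G ℝ} {c : ℝ} (hM : DS M) (hN : ∀ x y, N x y ≤ c) (x y : G) :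
    (M * N) x y ≤ c ∧ (N * M) x y ≤ c := by
  constructor
  · rw [Matrix.mul_apply]
    calc ∑ z, M x z * N z y ≤ ∑ z, M x z * c :=
          Finset.sum_le_sum (fun z _ => mul_le_mul_of_nonneg_left (hN _ _) (hM.nn _ _))
      _ = c := by rw [← Finset.sum_mul, hM.row, one_mul]
  · rw [Matrix.mul_apply]
    calc ∑ z, N x z * M z y ≤ ∑ z, c * M z y :=
          Finset.sum_le_sum (fun z _ => mul_le_mul_of_nonneg_right (hN _ _) (hM.nn _ _))
      _ = c := by rw [← Finset.mul_sum, hM.col, mul_one]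

theorem um_le (S : Finset G) (x y : G) : UM S x y ≤ 1 / (S.card : ℝ) :=
  div_le_div_of_nonneg_right (ind_le_one _) (Nat.cast_nonneg _)

end

theorem mat : MAT_S.{u} := by
  intro G _ _ _
  exact ⟨fun S hS => ⟨um_ds S hS.ne, um_inv S, um_tr S hS.inv⟩, fun _ _ => ds_mul,
    fun _ _ => inv_mul, fun _ _ => nn_mul, fun _ _ _ _ h1 h2 h3 h4 => mul_mono h1 h2 h3 h4,
    fun _ _ => cyc, fun _ _ _ h1 h2 => ds_sup h1 h2, fun S _ => um_le S⟩

end Pool.Agent.Lib.MP_688fd0_co.TE.H41
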