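import Pool.Agent.Lib.MP_688fd0_co.TE.H41.Logc

/-!
# Theorem E, module RUP (upper bounds for `r1` and `r2`, the average of `r2`)
-/

namespace Pool.Agent.Lib.MP_688fd0_co.TE.H41

open Finset

universe u

set_option linter.unusedSectionVars false

section

variable {G : Type u} [Group G] [Fintype G] [DecidableEq G]

theorem ds_half {M N : Matrix G G ℝ} (hM : DS M) (hN : DS N) : DS ((1 / 2 : ℝ) • (M + N)) := by
  refine ⟨fun x y => ?_, fun x => ?_, fun y => ?_⟩
  · rw [Matrix.smul_apply, Matrix.add_apply, smul_eq_mul]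
    have h1 := hM.nn x y
    have h2 := hN.nn x y
    positivity
  · simp only [Matrix.smul_apply, Matrix.add_apply, smul_eq_mul]
    rw [← Finset.mul_sum, Finset.sum_add_distrib, hM.row, hN.row]
    norm_num
  · simp only [Matrix.smul_apply, Matrix.add_apply, smul_eq_mul]
    rw [← Finset.mul_sum, Finset.sum_add_distrib, hM.col, hN.col]
    norm_num

theorem inv_half {M N : Matrix G G ℝ} (hM : Inv M) (hN : Inv N) :
    Inv ((1 / 2 : ℝ) • (M + N)) := by
  intro g x y
  rw [Matrix.smul_apply, Matrix.add_apply, Matrix.smul_apply, Matrix.add_apply, hM, hN]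

theorem wm_ds {B C : Finset G} (hB : Sy B) (hC : Sy C) (τ : Bool) : DS (WM B C τ) := by
  unfold WM
  split
  · exact ds_half (um_ds B hB.ne) (um_ds C hC.ne)
  · exact um_ds B hB.ne

theorem wm_inv (B C : Finset G) (τ : Bool) : Inv (WM B C τ) := by
  unfold WM
  split
  · exact inv_half (um_inv B) (um_inv C)
  · exact um_inv B

theorem wm_tr {B C : Finset G} (hB : Sy B) (hC : Sy C) (τ : Bool) :
    (WM B C τ).transpose = WM B C τ := by
  unfold WM
  split
  · rw [Matrix.transpose_smul, Matrix.transpose_add, um_tr B hB.inv, um_tr C hC.inv]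
  · exact um_tr B hB.inv

theorem sm_ds {B C : Finset G} (hB : Sy B) (hC : Sy C) (τ : Bool) : DS (SM B C τ) :=
  ds_mul (ds_mul (um_ds B hB.ne) (wm_ds hB hC τ)) (um_ds B hB.ne)

theorem sm_inv (B C : Finset G) (τ : Bool) : Inv (SM B C τ) :=
  inv_mul (inv_mul (um_inv B) (wm_inv B C τ)) (um_inv B)

theorem sm_tr {B C : Finset G} (hB : Sy B) (hC : Sy C) (τ : Bool) :
    (SM B C τ).transpose = SM B C τ := by
  unfold SM
  rw [Matrix.transpose_mul, Matrix.transpose_mul, um_tr B hB.inv, wm_tr hB hC, Matrix.mul_assoc]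

theorem qf_pos {B C : Finset G} (hB : Sy B) (hC : Sy C) (τ : Bool) (j : ℕ) :
    0 < qf B C τ j := q_pos (sm_ds hB hC τ) (sm_tr hB hC τ) j

/-- The analytic estimate. -/
theorem exp_half_le {x : ℝ} (h0 : 0 ≤ x) (h1 : x ≤ 1) : Real.exp (x / 2) ≤ 1 + x := by
  have h2 : Real.exp (-(x / 2)) ≥ 1 - x / 2 := by
    have := Real.add_one_le_exp (-(x / 2))
    linarith
  have h3 : Real.exp (x / 2) * Real.exp (-(x / 2)) = 1 := by
    rw [← Real.exp_add]
    simp
  have h4 : 0 < Real.exp (x / 2) := Real.exp_pos _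
  have h5 : Real.exp (x / 2) * (1 - x / 2) ≤ 1 := by
    have := mul_le_mul_of_nonneg_left h2 h4.le
    linarith
  have h6 : 0 < 1 - x / 2 := by linarith
  by_contra hc
  push Not at hc
  have h7 : (1 + x) * (1 - x / 2) < Real.exp (x / 2) * (1 - x / 2) :=
    mul_lt_mul_of_pos_right hc h6
  nlinarith

theorem ratio_bound {B C : Finset G} (hB : Sy B) (hC : Sy C) (τ : Bool) {k : ℕ} (hk : 1 ≤ k)
    (hlog : Real.log (Fintype.card G) ≤ k) :
    Real.sqrt (qf B C τ (k - 1)) * Real.sqrt (qf B C τ k) / qf B C τ k ≤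
      1 + Real.log (Fintype.card G) / k := by
  have hk0 : (0 : ℝ) < k := by exact_mod_cast hk
  have hl0 : 0 ≤ Real.log (Fintype.card G) := Real.log_natCast_nonneg _
  have h1 : qf B C τ (k - 1) ≤ Real.exp (Real.log (Fintype.card G) / k) * qf B C τ k :=
    q_ratio (sm_ds hB hC τ) (sm_tr hB hC τ) k hk
  have hq := qf_pos hB hC τ k
  have h2 : Real.sqrt (qf B C τ (k - 1)) ≤
      Real.exp (Real.log (Fintype.card G) / k / 2) * Real.sqrt (qf B C τ k) := by
    have h3 : Real.exp (Real.log (Fintype.card G) / k / 2) * Real.sqrt (qf B C τ k) =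
        Real.sqrt (Real.exp (Real.log (Fintype.card G) / k) * qf B C τ k) := by
      rw [Real.sqrt_mul (Real.exp_pos _).le, Real.exp_half]
    rw [h3]
    exact Real.sqrt_le_sqrt h1
  have h4 : Real.exp (Real.log (Fintype.card G) / k / 2) ≤ 1 + Real.log (Fintype.card G) / k :=
    exp_half_le (div_nonneg hl0 hk0.le) ((div_le_one hk0).mpr hlog)
  rw [div_le_iff₀ hq]
  have h5 : Real.sqrt (qf B C τ k) * Real.sqrt (qf B C τ k) = qf B C τ k :=
    Real.mul_self_sqrt hq.le
  calc Real.sqrt (qf B C τ (k - 1)) * Real.sqrt (qf B C τ k)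
      ≤ (Real.exp (Real.log (Fintype.card G) / k / 2) * Real.sqrt (qf B C τ k)) *
        Real.sqrt (qf B C τ k) := mul_le_mul_of_nonneg_right h2 (Real.sqrt_nonneg _)
    _ = Real.exp (Real.log (Fintype.card G) / k / 2) * qf B C τ k := by
        rw [mul_assoc, h5]
    _ ≤ (1 + Real.log (Fintype.card G) / k) * qf B C τ k :=
        mul_le_mul_of_nonneg_right h4 hq.le

theorem r1_le {B C : Finset G} (hB : Sy B) (hC : Sy C) (τ : Bool) {k : ℕ} (hk : 1 ≤ k)
    (hlog : Real.log (Fintype.card G) ≤ k) (s : G) :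
    0 ≤ r1 B C τ k s ∧ r1 B C τ k s ≤ 1 + Real.log (Fintype.card G) / k := by
  have hq := qf_pos hB hC τ k
  have hS := sm_ds hB hC τ
  have hW := wm_ds hB hC τ
  have hU := um_ds B hB.ne
  constructor
  · unfold r1
    exact div_nonneg ((ds_mul (ds_mul hW hU) (ds_pow hS _)).nn _ _) hq.le
  · refine le_trans ?_ (ratio_bound hB hC τ hk hlog)
    unfold r1
    refine div_le_div_of_nonneg_right ?_ hq.le
    have h1 : WM B C τ * UM B * SM B C τ ^ (2 * k - 1) =
        (WM B C τ * UM B * SM B C τ ^ (k - 1)) * SM B C τ ^ k := by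
      have : 2 * k - 1 = (k - 1) + k := by omega
      rw [this, pow_add, Matrix.mul_assoc (WM B C τ * UM B)]
    rw [h1]
    refine (cs _ _ _ _).trans ?_
    have h2 : rn (WM B C τ * UM B * SM B C τ ^ (k - 1)) s ≤ qf B C τ (k - 1) := by
      refine (rn_contr (ds_mul hW hU) (inv_pow (sm_inv B C τ) _) s).trans (le_of_eq ?_)
      rw [rn_pow (sm_tr hB hC τ)]
      rfl
    have h3 : rn (SM B C τ ^ k).transpose 1 = qf B C τ k := by
      rw [tr_pow (sm_tr hB hC τ), rn_pow (sm_tr hB hC τ)]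
      rfl
    rw [h3]
    exact mul_le_mul_of_nonneg_right (Real.sqrt_le_sqrt h2) (Real.sqrt_nonneg _)

theorem r2_le {B C : Finset G} (hB : Sy B) (hC : Sy C) (τ : Bool) {k : ℕ} (hk : 1 ≤ k)
    (hlog : Real.log (Fintype.card G) ≤ k) (s : G) :
    0 ≤ r2 B C τ k s ∧ r2 B C τ k s ≤ 1 + Real.log (Fintype.card G) / k := by
  have hq := qf_pos hB hC τ k
  have hS := sm_ds hB hC τ
  have hU := um_ds B hB.ne
  constructor
  · unfold r2
    exact div_nonneg ((ds_mul (ds_mul hU (ds_pow hS _)) hU).nn _ _) hq.le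
  · refine le_trans ?_ (ratio_bound hB hC τ hk hlog)
    unfold r2
    refine div_le_div_of_nonneg_right ?_ hq.le
    have h1 : UM B * SM B C τ ^ (2 * k - 1) * UM B =
        (UM B * SM B C τ ^ (k - 1)) * (SM B C τ ^ k * UM B) := by
      have : 2 * k - 1 = (k - 1) + k := by omega
      rw [this, pow_add, Matrix.mul_assoc, Matrix.mul_assoc, Matrix.mul_assoc]
    rw [h1]
    refine (cs _ _ _ _).trans ?_
    have h2 : rn (UM B * SM B C τ ^ (k - 1)) s ≤ qf B C τ (k - 1) := by
      refine (rn_contr hU (inv_pow (sm_inv B C τ) _) s).trans (le_of_eq ?_)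
      rw [rn_pow (sm_tr hB hC τ)]
      rfl
    have h3 : rn (SM B C τ ^ k * UM B).transpose 1 ≤ qf B C τ k := by
      rw [Matrix.transpose_mul, tr_pow (sm_tr hB hC τ), um_tr B hB.inv]
      refine (rn_contr hU (inv_pow (sm_inv B C τ) _) 1).trans (le_of_eq ?_)
      rw [rn_pow (sm_tr hB hC τ)]
      rfl
    exact mul_le_mul (Real.sqrt_le_sqrt h2) (Real.sqrt_le_sqrt h3) (Real.sqrt_nonneg _)
      (Real.sqrt_nonneg _)

theorem r2_avg {B C : Finset G} (hB : Sy B) (hC : Sy C) (τ : Bool) {k : ℕ} (hk : 1 ≤ k) :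
    ∑ s, WM B C τ 1 s * r2 B C τ k s = 1 := by
  have hq := qf_pos hB hC τ k
  have h1 : ∑ s, WM B C τ 1 s * r2 B C τ k s =
      (WM B C τ * (UM B * SM B C τ ^ (2 * k - 1) * UM B)) 1 1 / qf B C τ k := by
    rw [Matrix.mul_apply, Finset.sum_div]
    refine Finset.sum_congr rfl (fun s _ => ?_)
    unfold r2
    ring
  have h2 : (WM B C τ * (UM B * SM B C τ ^ (2 * k - 1) * UM B)) 1 1 = qf B C τ k := by
    have h3 : WM B C τ * (UM B * SM B C τ ^ (2 * k - 1) * UM B) =
        (WM B C τ * UM B * SM B C τ ^ (2 * k - 1)) * UM B := by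
      simp only [Matrix.mul_assoc]
    rw [h3, cyc (inv_mul (inv_mul (wm_inv B C τ) (um_inv B)) (inv_pow (sm_inv B C τ) _))
      (um_inv B)]
    have h4 : UM B * (WM B C τ * UM B * SM B C τ ^ (2 * k - 1)) = SM B C τ ^ (2 * k) := by
      have : 2 * k = 1 + (2 * k - 1) := by omega
      conv_rhs => rw [this, pow_add, pow_one]
      unfold SM
      simp only [Matrix.mul_assoc]
    rw [h4]
    rfl
  rw [h1, h2, div_self hq.ne']

theorem um_sum (B : Finset G) (f : G → ℝ) :
    ∑ s, UM B 1 s * f s = (∑ s ∈ B, f s) / (B.card : ℝ) := by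
  classical
  have h1 : ∀ s, UM B 1 s * f s = (if s ∈ B then f s else 0) / (B.card : ℝ) := by
    intro s
    unfold UM
    rw [inv_one_mul]
    by_cases h : s ∈ B
    · rw [ind_of h, if_pos h]
      ring
    · rw [ind_not h, if_neg h]
      ring
  simp only [h1]
  rw [← Finset.sum_div, Finset.sum_ite_mem, Finset.univ_inter]
where
  inv_one_mul {x : G} : (1 : G)⁻¹ * x = x := by simp

theorem r2_low {B C : Finset G} (hB : Sy B) (hC : Sy C) {k : ℕ} (hk : 1 ≤ k)
    (hlog : Real.log (Fintype.card G) ≤ k) {t : G} (ht : t ∈ C) :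
    1 - 2 * C.card * (Real.log (Fintype.card G) / k) ≤ r2 B C true k t := by
  have h1 := r2_avg hB hC true hk
  set η := Real.log (Fintype.card G) / k with hη
  have hη0 : 0 ≤ η := div_nonneg (Real.log_natCast_nonneg _) (Nat.cast_nonneg _)
  have hb : (0 : ℝ) < B.card := by exact_mod_cast hB.ne.card_pos
  have hc : (0 : ℝ) < C.card := by exact_mod_cast hC.ne.card_pos
  have h2 : ∑ s, WM B C true 1 s * r2 B C true k s =
      (1 / 2) * ((∑ s ∈ B, r2 B C true k s) / B.card) +
      (1 / 2) * ((∑ s ∈ C, r2 B C true k s) / C.card) := by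
    rw [← um_sum, ← um_sum, Finset.mul_sum, Finset.mul_sum, ← Finset.sum_add_distrib]
    refine Finset.sum_congr rfl (fun s _ => ?_)
    have : WM B C true 1 s = 1 / 2 * (UM B 1 s + UM C 1 s) := by
      unfold WM
      rw [if_pos rfl, Matrix.smul_apply, Matrix.add_apply, smul_eq_mul]
    rw [this]
    ring
  rw [h2] at h1
  have h3 : (∑ s ∈ B, r2 B C true k s) / B.card ≤ 1 + η := by
    rw [div_le_iff₀ hb]
    have := Finset.sum_le_card_nsmul B (fun s => r2 B C true k s) (1 + η)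
      (fun s _ => (r2_le hB hC true hk hlog s).2)
    rw [nsmul_eq_mul] at this
    linarith [mul_comm (B.card : ℝ) (1 + η)]
  have h4 : 1 - η ≤ (∑ s ∈ C, r2 B C true k s) / C.card := by linarith
  rw [le_div_iff₀ hc] at h4
  have h5 : ∑ s ∈ C.erase t, r2 B C true k s + r2 B C true k t = ∑ s ∈ C, r2 B C true k s :=
    Finset.sum_erase_add C _ ht
  have h6 : ∑ s ∈ C.erase t, r2 B C true k s ≤ ((C.card : ℝ) - 1) * (1 + η) := by
    have := Finset.sum_le_card_nsmul (C.erase t) (fun s => r2 B C true k s) (1 + η)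
      (fun s _ => (r2_le hB hC true hk hlog s).2)
    rw [nsmul_eq_mul, Finset.card_erase_of_mem ht] at this
    have h7 : ((C.card - 1 : ℕ) : ℝ) = (C.card : ℝ) - 1 := by
      rw [Nat.cast_sub (Finset.card_pos.mpr hC.ne), Nat.cast_one]
    rw [h7] at this
    exact this
  nlinarith

end

theorem rup : RUP_S.{u} := by
  intro G _ _ _ B C hB hC τ k hk hlog
  refine ⟨r1_le hB hC τ hk hlog, r2_le hB hC τ hk hlog, r2_avg hB hC τ hk, ?_⟩
  intro hτ t ht
  subst hτ
  exact r2_low hB hC hk hlog ht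

end Pool.Agent.Lib.MP_688fd0_co.TE.H41
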